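import Mathlib
import Pool.Agent.V11330.TG.Main

/-!
Toric Gaussian DAG ideals and the shortest trek ideal.

A DAG on `[n]`, labelled so that every edge `i → j` has `i < j`, is given by its edge relation `E`.
-/

set_option autoImplicit false

open Matrix Relation MvPolynomial

namespace Pool.Agent.Results.MP_3f84da_ag.ShortestTrek

variable {n : ℕ}

/-- The indices `(i, j)`, `i ≤ j`, of the variables `σ_ij`. -/
abbrev Var (n : ℕ) : Type := {p : Fin n × Fin n // p.1 ≤ p.2}

/-- The Gaussian DAG model: the matrices `(I-L)⁻ᵀ D (I-L)⁻¹`, where `L` is a real matrix supported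
on the edges and `D` is a diagonal matrix with positive diagonal entries. -/
def Model (E : Fin n → Fin n → Prop) : Set (Matrix (Fin n) (Fin n) ℝ) :=
  {S | ∃ (L : Matrix (Fin n) (Fin n) ℝ) (ω : Fin n → ℝ), (∀ u v, ¬ E u v → L u v = 0) ∧
    (∀ v, 0 < ω v) ∧ S = ((1 - L)⁻¹)ᵀ * Matrix.diagonal ω * (1 - L)⁻¹}

/-- The vanishing ideal `I_G` of the model in `ℂ[σ_ij : i ≤ j]`. -/
noncomputable def IG (E : Fin n → Fin n → Prop) : Ideal (MvPolynomial (Var n) ℂ) where
  carrier := {f | ∀ S ∈ Model E, MvPolynomial.eval (fun p => (S p.1.1 p.1.2 : ℂ)) f = 0}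
  add_mem' := by
    intro a b ha hb S h
    rw [map_add, ha S h, hb S h, add_zero]
  zero_mem' := by
    intro S _
    exact map_zero _
  smul_mem' := by
    intro c x hx S h
    rw [smul_eq_mul, map_mul, hx S h, mul_zero]

/-- Toric ideals: kernels of homomorphisms (to a polynomial ring) which send each variable to a
monomial or to `0`. -/
def IsToric (I : Ideal (MvPolynomial (Var n) ℂ)) : Prop :=
  ∃ (T : Type) (φ : MvPolynomial (Var n) ℂ →ₐ[ℂ] MvPolynomial T ℂ),
    (∀ p, φ (X p) = 0 ∨ ∃ m, φ (X p) = monomial m 1) ∧ I = RingHom.ker φ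

/-- A wider notion: prime ideals which are generated by polynomials with at most two terms, or are
kernels of algebra homomorphisms to a commutative monoid algebra `ℂ[A]` (for example a Laurent
polynomial ring) which send each variable to a scalar multiple of an element of the monoid. -/
def IsToricWide (I : Ideal (MvPolynomial (Var n) ℂ)) : Prop :=
  I.IsPrime ∧
    ((∃ B : Set (MvPolynomial (Var n) ℂ), (∀ b ∈ B, b.support.card ≤ 2) ∧ I = Ideal.span B) ∨
      ∃ (A : Type) (_ : AddCommMonoid A) (ψ : MvPolynomial (Var n) ℂ →ₐ[ℂ] AddMonoidAlgebra ℂ A),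
        (∀ p, ∃ (m : A) (a : ℂ), ψ (X p) = AddMonoidAlgebra.single m a) ∧ I = RingHom.ker ψ)

/-- `l ∈ T(i, j)`: `l` is the list of the vertices of a path from `i` to `j` (consecutive vertices
are joined by an edge of any orientation) which repeats no vertex and has no collider. -/
def Trek (E : Fin n → Fin n → Prop) (i j : Fin n) (l : List (Fin n)) : Prop :=
  l.head? = some i ∧ l.getLast? = some j ∧ l.Nodup ∧
    (∀ x y, [x, y] <:+: l → E x y ∨ E y x) ∧ ∀ x y z, [x, y, z] <:+: l → ¬ (E x y ∧ E z y)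

/-- `l` is a trek of minimal length in `T(i, j)`. -/
def Shortest (E : Fin n → Fin n → Prop) (i j : Fin n) (l : List (Fin n)) : Prop :=
  Trek E i j l ∧ ∀ l', Trek E i j l' → l.length ≤ l'.length

/-- The shortest trek map is defined. -/
def PsiDefined (E : Fin n → Fin n → Prop) : Prop :=
  ∀ i j, i < j → (∃ l, Trek E i j l) → ∃! l, Shortest E i j l

/-- The variables `a_i` (`Sum.inl i`) and `λ_kl`, `k → l` an edge (`Sum.inr ⟨(k, l), _⟩`). -/
abbrev Par (E : Fin n → Fin n → Prop) : Type := Fin n ⊕ {e : Fin n × Fin n // E e.1 e.2}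

open Classical in
/-- The set of the edges `k → l` of the path `l`. -/
noncomputable def edges (E : Fin n → Fin n → Prop) (l : List (Fin n)) :
    Finset {e : Fin n × Fin n // E e.1 e.2} :=
  Finset.univ.filter fun e => [e.1.1, e.1.2] <:+: l ∨ [e.1.2, e.1.1] <:+: l

open Classical in
/-- The set of the vertices of the path `l` into which no edge of the path points.  For a trek its
only element is the top vertex. -/
noncomputable def tops (E : Fin n → Fin n → Prop) (l : List (Fin n)) : Finset (Fin n) :=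
  Finset.univ.filter fun v => v ∈ l ∧ ∀ e ∈ edges E l, e.1.2 ≠ v

/-- The monomial `a_top(P) * ∏_{k → l ∈ P} λ_kl` of a trek `P`. -/
noncomputable def trekMonomial (E : Fin n → Fin n → Prop) (l : List (Fin n)) :
    MvPolynomial (Par E) ℂ :=
  (∏ v ∈ tops E l, X (Sum.inl v)) * ∏ e ∈ edges E l, X (Sum.inr e)

open Classical in
/-- The image of `σ_ij` under the shortest trek map: `a_i` if `i = j`, the monomial of the shortest
trek if there is a trek, and `0` otherwise. -/
noncomputable def psiVar (E : Fin n → Fin n → Prop) (i j : Fin n) : MvPolynomial (Par E) ℂ :=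
  if i = j then X (Sum.inl i) else
    if h : ∃ l, Shortest E i j l then trekMonomial E (Classical.choose h) else 0

/-- The shortest trek map `ψ_G`. -/
noncomputable def psi (E : Fin n → Fin n → Prop) :
    MvPolynomial (Var n) ℂ →ₐ[ℂ] MvPolynomial (Par E) ℂ :=
  MvPolynomial.aeval fun p => psiVar E p.1.1 p.1.2

/-- The ideal `ST_G`. -/
noncomputable def ST (E : Fin n → Fin n → Prop) : Ideal (MvPolynomial (Var n) ℂ) :=
  RingHom.ker (psi E)

theorem IG_eq (E : Fin n → Fin n → Prop) : IG E = Pool.Agent.V11330.TG.vanIdeal ℂ E := by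
  have hpt : ∀ (L : Matrix (Fin n) (Fin n) ℝ) (ω : Fin n → ℝ), Pool.Agent.V11330.TG.pt ℂ L ω =
      fun p => (((((1 - L)⁻¹)ᵀ * Matrix.diagonal ω * (1 - L)⁻¹ : Matrix (Fin n) (Fin n) ℝ)
        p.1.1 p.1.2 : ℝ) : ℂ) := by
    intro L ω
    funext p
    rfl
  ext f
  rw [Pool.Agent.V11330.TG.mem_vanIdeal]
  change (∀ S ∈ Model E, MvPolynomial.eval (fun p => (S p.1.1 p.1.2 : ℂ)) f = 0) ↔ _
  constructor
  · intro h L ω hp
    rw [hpt]
    exact h _ ⟨L, ω, hp.1, hp.2, rfl⟩
  · rintro h S ⟨L, ω, h1, h2, rfl⟩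
    have h3 := h L ω ⟨h1, h2⟩
    rw [hpt] at h3
    exact h3

theorem shortest_iff {E : Fin n → Fin n → Prop} {i j : Fin n} {l : List (Fin n)} :
    Shortest E i j l ↔ Pool.Agent.V11330.TG.Shortest E i j l := Iff.rfl

theorem psiVar_eq (E : Fin n → Fin n → Prop) (i j : Fin n) :
    psiVar E i j = Pool.Agent.V11330.TG.psiVar E i j := rfl

theorem psi_eq (E : Fin n → Fin n → Prop) : psi E = Pool.Agent.V11330.TG.psi E := rfl

theorem main {E : Fin n → Fin n → Prop} (hE : ∀ i j, E i j → i < j)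
    (hcp : Pool.Agent.V11330.TG.ClassProp (Pool.Agent.V11330.TG.vanIdeal ℂ E))
    (hp : (Pool.Agent.V11330.TG.vanIdeal ℂ E).IsPrime) : PsiDefined E ∧ IG E = ST E := by
  constructor
  · intro i j _ ⟨l, hl⟩
    obtain ⟨l', h1, h2⟩ := Pool.Agent.V11330.TG.allUniq hE hcp i j
      (Pool.Agent.V11330.TG.trek_common hl)
    exact ⟨l', h1, h2⟩
  · rw [IG_eq]
    exact Pool.Agent.V11330.TG.van_eq_ker hE hcp hp

/-- For every DAG `G`, the ideal `I_G` is toric if and only if `ψ_G` is defined and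
`I_G = ST_G`; the same is true for the wider notion of toric ideals. -/
theorem result : ∀ (n : ℕ) (E : Fin n → Fin n → Prop), (∀ i j, E i j → i < j) →
    (IsToric (IG E) ↔ PsiDefined E ∧ IG E = ST E) ∧
      (IsToricWide (IG E) ↔ PsiDefined E ∧ IG E = ST E) := by
  intro n E hE
  refine ⟨⟨?_, ?_⟩, ⟨?_, ?_⟩⟩
  · rintro ⟨T, φ, h1, h2⟩
    rw [IG_eq] at h2
    refine main hE ?_ ?_
    · rw [h2]
      apply Pool.Agent.V11330.TG.classProp_ker
      intro s
      rcases h1 s with h | ⟨m, h⟩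
      · exact ⟨0, 0, by rw [h, monomial_zero]⟩
      · exact ⟨m, 1, h⟩
    · rw [h2]
      exact RingHom.ker_isPrime _
  · rintro ⟨-, h2⟩
    exact ⟨Par E, psi E, Pool.Agent.V11330.TG.psi_isTerm, h2⟩
  · rintro ⟨hp, h⟩
    rw [IG_eq] at hp
    refine main hE ?_ hp
    rcases h with ⟨B, hB, h⟩ | ⟨A, hA, ψ, hψ, h⟩
    · rw [IG_eq] at h
      rw [h]
      exact Pool.Agent.V11330.TG.classProp_span B hB
    · rw [IG_eq] at h
      rw [h]
      exact Pool.Agent.V11330.TG.classProp_kerMon ψ hψ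
  · rintro ⟨-, h2⟩
    refine ⟨?_, Or.inr ⟨Par E →₀ ℕ, inferInstance, psi E, fun p => ?_, h2⟩⟩
    · rw [h2]
      exact RingHom.ker_isPrime _
    · rcases Pool.Agent.V11330.TG.psi_isTerm (E := E) p with h | ⟨m, h⟩
      · exact ⟨0, 0, by rw [AddMonoidAlgebra.single_zero]; exact h⟩
      · exact ⟨m, 1, h⟩

end Pool.Agent.Results.MP_3f84da_ag.ShortestTrek
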